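import Pool.Agent.Q150.FeatherBundle

/-!
# MP_861644_gt, Q1 (a): a homogeneous non-Hausdorff 3-manifold with every `NH z` a torus
-/

set_option autoImplicit false

open Set Topology

namespace Pool.Agent.Results.MP_861644_gt.NHTorus

open Pool.Agent.Q150.HNH

theorem result : ∃ (M : Type) (_ : TopologicalSpace M),
    IsHNH 3 M ∧ ∀ z : M, Nonempty (NH z ≃ₜ Circle × Circle) := by
  let κ : ℝ →+ AddCircle (1 : ℝ) := QuotientAddGroup.mk' (AddSubgroup.zmultiples (1 : ℝ))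
  have hκ : Continuous κ := AddCircle.continuous_mk' (1 : ℝ)
  have hκs : Function.Surjective κ := QuotientAddGroup.mk'_surjective _
  let ι : ℝ →+ AddCircle (1 : ℝ) × AddCircle (1 : ℝ) :=
    AddMonoidHom.prod κ (κ.comp (AddMonoidHom.mulLeft (Real.sqrt 2)))
  have hι : Continuous ι := hκ.prodMk (hκ.comp (continuous_const.mul continuous_id))
  have hd : DenseRange ι := by
    intro p
    rw [mem_closure_iff_nhds]
    intro W hW
    obtain ⟨p1, p2⟩ := p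
    rw [mem_nhds_prod_iff] at hW
    obtain ⟨O1, hO1, O2, hO2, hO⟩ := hW
    obtain ⟨V2, hV2, hV2o, hp2⟩ := mem_nhds_iff.mp hO2
    obtain ⟨a, rfl⟩ := hκs p1
    have hdense : DenseRange (· • ((Real.sqrt 2 : ℝ) : AddCircle (1 : ℝ)) : ℤ → AddCircle (1 : ℝ)) := by
      rw [AddCircle.denseRange_zsmul_coe_iff, div_one]
      exact irrational_sqrt_two
    have hopen : IsOpen {z : AddCircle (1 : ℝ) | z + κ (Real.sqrt 2 * a) ∈ V2} :=
      hV2o.preimage (continuous_id.add continuous_const)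
    obtain ⟨n, hn⟩ := hdense.exists_mem_open hopen ⟨p2 - κ (Real.sqrt 2 * a), by
      change p2 - κ (Real.sqrt 2 * a) + κ (Real.sqrt 2 * a) ∈ V2
      rwa [sub_add_cancel]⟩
    have hn' : n • κ (Real.sqrt 2) + κ (Real.sqrt 2 * a) ∈ V2 := hn
    refine ⟨ι (a + n), hO ⟨?_, hV2 ?_⟩, ⟨_, rfl⟩⟩
    · change κ (a + n) ∈ O1
      have h1 : κ (n : ℝ) = 0 := by
        rw [QuotientAddGroup.mk'_apply, QuotientAddGroup.eq_zero_iff, AddSubgroup.mem_zmultiples_iff]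
        exact ⟨n, by simp⟩
      rw [map_add, h1, add_zero]
      exact mem_of_mem_nhds hO1
    · change κ (Real.sqrt 2 * (a + n)) ∈ V2
      have h2 : κ (Real.sqrt 2 * (a + n)) = n • κ (Real.sqrt 2) + κ (Real.sqrt 2 * a) := by
        rw [← map_zsmul, ← map_add]
        congr 1
        rw [zsmul_eq_mul]
        ring
      rw [h2]
      exact hn'
  have hfr : Module.finrank ℝ (ℝ × ℝ) = 2 := by
    rw [Module.finrank_prod, Module.finrank_self]
  have hchart : ∀ y : AddCircle (1 : ℝ) × AddCircle (1 : ℝ), ∃ O : Set (AddCircle (1 : ℝ) × AddCircle (1 : ℝ)),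
      IsOpen O ∧ y ∈ O ∧ Nonempty (O ≃ₜ ℝ × ℝ) := by
    rintro ⟨y1, y2⟩
    obtain ⟨O1, h1, h1', ⟨e1⟩⟩ := Pool.Agent.Q150.Feather.circle_chart y1
    obtain ⟨O2, h2, h2', ⟨e2⟩⟩ := Pool.Agent.Q150.Feather.circle_chart y2
    exact ⟨O1 ×ˢ O2, h1.prod h2, ⟨h1', h2'⟩, ⟨(Homeomorph.Set.prod _ _).trans (e1.prodCongr e2)⟩⟩
  obtain ⟨M, t, h1, h2⟩ := Pool.Agent.Q150.Feather.main hι hd (E := ℝ × ℝ) hfr hchart
  refine ⟨M, t, h1, fun z => ?_⟩
  obtain ⟨e⟩ := h2 z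
  have e0 : AddCircle (1 : ℝ) ≃ₜ Circle := AddCircle.homeomorphCircle (one_ne_zero)
  exact ⟨e.trans (e0.prodCongr e0)⟩

end Pool.Agent.Results.MP_861644_gt.NHTorus
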